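import Pool.Agent.W538.HPol.Main

/-!
Inhomogeneous hyperpolar foliations of codimension two exist on the irreducible symmetric space
`SL(4, ℝ) / SO(4)` of noncompact type.
-/

namespace Pool.Agent.Results.MP_08f71d_gt.Inhomogeneous

open Pool.Agent.W538.HPol

/-- On the symmetric space `SL(4, ℝ) / SO(4)` of the positive definite symmetric real `4 × 4`
matrices with determinant one there is a singular Riemannian foliation with closed embedded leaves,
of codimension two, which is hyperpolar and isoparametric, and which is not homogeneous: its leaves
are not the orbits of any group of isometries. -/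
theorem result : ∃ 𝓕 : Set (Set Mat), IsSRF 𝓕 ∧ HasCodimTwo 𝓕 ∧ IsHyperpolar 𝓕 ∧
    IsIsoparametric 𝓕 ∧ ¬ IsHomogeneous 𝓕 := main

end Pool.Agent.Results.MP_08f71d_gt.Inhomogeneous
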